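import Mathlib

/-!
Project UGS: a uniform gap for the growth of soluble groups of bounded derived length
(statements of the parts).
-/

set_option autoImplicit false

namespace Pool.Agent.Y485.UGS

/-- the elements which are products of at most `n` elements of `X` and their inverses -/
def Ball {G : Type} [Group G] (X : Finset G) (n : ℕ) : Set G :=
  {g | ∃ l : List G, l.length ≤ n ∧ (∀ x ∈ l, x ∈ X ∨ x⁻¹ ∈ X) ∧ l.prod = g}

/-- virtually nilpotent groups -/
def VN (G : Type) [Group G] : Prop :=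
  ∃ H : Subgroup G, H.index ≠ 0 ∧ Group.IsNilpotent H

/-- the action of a group on the abelianization of a normal subgroup, by conjugation -/
noncomputable def cj {G : Type} [Group G] (H : Subgroup G) [H.Normal] :
    G →* AddMonoid.End (Additive (Abelianization H)) where
  toFun g := MonoidHom.toAdditive (Abelianization.map (MulAut.conjNormal g : H ≃* H).toMonoidHom)
  map_one' := by
    ext x
    induction x using Additive.rec with
    | _ x =>
      induction x using QuotientGroup.induction_on with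
      | _ x => simp; rfl
  map_mul' g h := by
    ext x
    induction x using Additive.rec with
    | _ x =>
      induction x using QuotientGroup.induction_on with
      | _ x => simp; rfl

/-- the class of an element of `H` in the abelianization, written additively -/
def cl {G : Type} [Group G] (H : Subgroup G) (a : H) : Additive (Abelianization H) :=
  Additive.ofMul (Abelianization.of a)

/-- quasi-unipotent endomorphisms -/
def QU {A : Type} [AddCommGroup A] (σ : AddMonoid.End A) : Prop :=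
  ∃ q r : ℕ, 0 < q ∧ (σ ^ q - 1) ^ r = 0

/-- the subgroup `H` acts virtually unipotently -/
def VU {G A : Type} [Group G] [AddCommGroup A] (φ : G →* AddMonoid.End A) (H : Subgroup G) :
    Prop :=
  ∃ (H0 : Subgroup G) (r : ℕ), H0 ≤ H ∧ H0.relIndex H ≠ 0 ∧
    ∀ l : List G, (∀ h ∈ l, h ∈ H0) → l.length = r → (l.map (fun h => φ h - 1)).prod = 0

/-- J1. One step down the derived series: if the ball of radius `n` has less than `2 ^ N` elements,
then a normal subgroup which is the normal closure of short elements is generated, modulo its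
commutator subgroup, by few short elements, and its commutator subgroup is the normal closure of
short elements. -/
def S_LEVEL : Prop :=
  ∀ (G : Type) [Group G] (X : Finset G), Subgroup.closure (X : Set G) = ⊤ →
    ∀ (H : Subgroup G) [H.Normal] (R : Set G) (L N n : ℕ),
      R ⊆ Ball X L → Subgroup.normalClosure R = H → 1 ≤ N → N * (2 * N + L) ≤ n →
      (Ball X n).ncard < 2 ^ N →
      (∃ S : Finset G, S.card ≤ N ∧ (∀ s ∈ S, s ∈ H ∧ s ∈ Ball X (2 * N + L)) ∧
        Subgroup.closure (S : Set G) ⊔ ⁅H, H⁆ = H) ∧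
      ∃ R' : Set G, R' ⊆ Ball X ((N + 2) * (2 * N + L) + 2) ∧
        Subgroup.normalClosure R' = ⁅H, H⁆

/-- J2. The first step. -/
def S_LEVEL0 : Prop :=
  ∀ (G : Type) [Group G] (X : Finset G), Subgroup.closure (X : Set G) = ⊤ →
    ∀ (N n : ℕ), 1 ≤ N → N ≤ n → (Ball X n).ncard < 2 ^ N →
      (∃ S : Finset G, S.card ≤ N ∧ (∀ s ∈ S, s ∈ Ball X 1) ∧
        Subgroup.closure (S : Set G) ⊔ ⁅(⊤ : Subgroup G), (⊤ : Subgroup G)⁆ = ⊤) ∧
      ∃ R' : Set G, R' ⊆ Ball X (N + 4) ∧
        Subgroup.normalClosure R' = ⁅(⊤ : Subgroup G), (⊤ : Subgroup G)⁆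

/-- J3. An integral matrix with all eigenvalues very close to the unit disc has only roots of unity
and zero as eigenvalues. -/
def S_KRON : Prop :=
  ∀ (d : ℕ) (T : Matrix (Fin d) (Fin d) ℤ),
    (∀ z : ℂ, (T.charpoly.map (Int.castRingHom ℂ)).IsRoot z → ‖z‖ ^ (16 * d ^ 2) < 2) →
    ∀ z : ℂ, (T.charpoly.map (Int.castRingHom ℂ)).IsRoot z → z = 0 ∨ ∃ q : ℕ, 0 < q ∧ z ^ q = 1

/-- J4. If the ball of radius `n` has less than `2 ^ N` elements, short elements satisfy short
relations. -/
def S_REL : Prop :=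
  ∀ (G : Type) [Group G] (X : Finset G) (H : Subgroup G) [H.Normal] (s : G) (a : H)
    (N n m La Ls : ℕ), s ∈ Ball X Ls → (a : G) ∈ Ball X La → N * (La + 2 * m * Ls) ≤ n →
    (Ball X n).ncard < 2 ^ N →
    ∃ c : Fin N → ℤ, c ≠ 0 ∧ (∀ t, |c t| ≤ 1) ∧
      ∑ t, c t • ((cj H s) ^ (m * (t : ℕ))) (cl H a) = 0

/-- J5. Short relations for a finite set of generators force an automorphism of an abelian group
to be quasi-unipotent. -/
def S_QU : Prop :=
  ∀ (A : Type) [AddCommGroup A] (σ : AddMonoid.End A) (N m : ℕ) (S : Finset A),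
    IsUnit σ → S.card ≤ N → AddSubgroup.closure (S : Set A) = ⊤ → 16 * N ^ 2 ≤ m →
    (∀ a ∈ S, ∃ c : Fin N → ℤ, c ≠ 0 ∧ (∀ t, |c t| ≤ 1) ∧
      ∑ t, c t • (σ ^ (m * (t : ℕ))) a = 0) →
    QU σ

/-- J6. Extension step for virtually unipotent actions. -/
def S_EXT : Prop :=
  ∀ (G A : Type) [Group G] [AddCommGroup A] (φ : G →* AddMonoid.End A) (H K : Subgroup G)
    (S : Finset G), K ≤ H → ⁅H, H⁆ ≤ K → K.FG → (∀ s ∈ S, s ∈ H) →
    Subgroup.closure (S : Set G) ⊔ K = H → (∀ s ∈ S, QU (φ s)) → VU φ K → VU φ H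

/-- J7. A soluble group which acts virtually unipotently on all factors of the derived series is
virtually nilpotent. -/
def S_FIN : Prop :=
  ∀ (G : Type) [Group G] (l : ℕ), derivedSeries G l = ⊥ →
    (∀ i < l, VU (cj (derivedSeries G i)) ⊤) → VN G

/-- The main technical theorem: constants. -/
def cc : ℕ → ℕ
  | 0 => 1
  | 1 => 5
  | (i + 2) => 3 * cc (i + 1) + 8

/-- J8. The main theorem for soluble groups. -/
def S_MAIN : Prop :=
  ∀ l : ℕ, ∃ C : ℕ, 0 < C ∧ ∀ (G : Type) [Group G] (X : Finset G),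
    Subgroup.closure (X : Set G) = ⊤ → derivedSeries G l = ⊥ →
    ∀ N n : ℕ, 1 ≤ N → C * N ^ (l + 1) ≤ n → (Ball X n).ncard < 2 ^ N → VN G

/-- J9. Schreier generators of a subgroup of finite index. -/
def S_SCH : Prop :=
  ∀ (G : Type) [Group G] (X : Finset G), Subgroup.closure (X : Set G) = ⊤ →
    ∀ (H : Subgroup G) (m : ℕ), H.index ≠ 0 → H.index ≤ m →
      ∃ Y : Finset H, Subgroup.closure (Y : Set H) = ⊤ ∧
        ∀ k : ℕ, (Ball Y k).ncard ≤ (Ball X ((2 * m + 1) * k)).ncard

/-- J10. Quotients. -/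
def S_QUOT : Prop :=
  ∀ (G : Type) [Group G] (X : Finset G), Subgroup.closure (X : Set G) = ⊤ → ∀ l : ℕ,
    derivedSeries (G ⧸ derivedSeries G l) l = ⊥ ∧
    ∃ Y : Finset (G ⧸ derivedSeries G l), Subgroup.closure (Y : Set (G ⧸ derivedSeries G l)) = ⊤ ∧
      ∀ k : ℕ, (Ball Y k).ncard ≤ (Ball X k).ncard

end Pool.Agent.Y485.UGS
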